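import Mathlib
import Pool.Agent.H.MP_3cd2af_an.A

namespace Pool.Agent.Results.MP_3cd2af_an.OrderMatters

open Dynamics Set Pool.Agent.H.MP_3cd2af_an

/-- the logistic map -/
def f (a x : ℝ) : ℝ := a * x * (1 - x)

lemma f_sub (a x y : ℝ) (ha : 0 ≤ a) : |f a x - f a y| = a * |1 - x - y| * |x - y| := by
  rw [show f a x - f a y = a * (1 - x - y) * (x - y) by unfold f; ring, abs_mul, abs_mul,
    abs_of_nonneg ha]

lemma f_mem {a x : ℝ} (ha : 0 ≤ a) (hx : x ∈ Icc (0 : ℝ) 1) : f a x ∈ Icc 0 (a / 4) :=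
  ⟨mul_nonneg (mul_nonneg ha hx.1) (by linarith [hx.2]), by
    unfold f; nlinarith [mul_nonneg ha (sq_nonneg (x - 1 / 2))]⟩

lemma f_mem1 {a x : ℝ} (ha : 0 ≤ a) (ha' : a ≤ 4) (hx : x ∈ Icc (0 : ℝ) 1) : f a x ∈ Icc (0 : ℝ) 1 :=
  ⟨(f_mem ha hx).1, (f_mem ha hx).2.trans (by linarith)⟩

def H : ℝ → ℝ := f 1 ∘ f 3 ∘ f 4

lemma H_mem {x : ℝ} (hx : x ∈ Icc (0 : ℝ) 1) : H x ∈ Icc (0 : ℝ) (1 / 4) :=
  f_mem zero_le_one (f_mem1 (by norm_num) (by norm_num) (f_mem1 (by norm_num) le_rfl hx))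

lemma H_sub (x y : ℝ) : |H x - H y| = 12 * (|1 - f 3 (f 4 x) - f 3 (f 4 y)| *
    |1 - f 4 x - f 4 y|) * |1 - x - y| * |x - y| := by
  simp only [H, Function.comp_apply]
  rw [f_sub _ _ _ zero_le_one, f_sub 3 _ _ (by norm_num), f_sub 4 _ _ (by norm_num)]
  ring

lemma H_lip {x y : ℝ} (hx : x ∈ Icc (0 : ℝ) 1) (hy : y ∈ Icc (0 : ℝ) 1) :
    |H x - H y| ≤ 12 * |x - y| := by
  have b : ∀ u v : ℝ, u ∈ Icc (0 : ℝ) 1 → v ∈ Icc (0 : ℝ) 1 → |1 - u - v| ≤ 1 := fun u v hu hv =>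
    abs_le.2 ⟨by linarith [hu.2, hv.2], by linarith [hu.1, hv.1]⟩
  have x1 := f_mem1 (a := 4) (by norm_num) le_rfl hx
  have y1 := f_mem1 (a := 4) (by norm_num) le_rfl hy
  have := b _ _ (f_mem1 (a := 3) (by norm_num) (by norm_num) x1)
    (f_mem1 (a := 3) (by norm_num) (by norm_num) y1)
  have := b _ _ x1 y1
  have := b _ _ hx hy
  rw [H_sub]
  calc _ ≤ 12 * (1 * 1) * 1 * |x - y| := by gcongr
    _ = _ := by ring

lemma H_exp {x y : ℝ} (hx : x ∈ Icc (0 : ℝ) (1 / 32)) (hy : y ∈ Icc (0 : ℝ) (1 / 32)) :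
    |x - y| ≤ |H x - H y| := by
  have a : ∀ x ∈ Icc (0 : ℝ) (1 / 32), f 4 x ≤ 1 / 8 ∧ f 3 (f 4 x) ≤ 3 / 8 := fun x hx => by
    have : f 4 x ≤ 1 / 8 := by unfold f; nlinarith [hx.1, hx.2]
    refine ⟨this, ?_⟩
    generalize f 4 x = u at *
    unfold f; nlinarith
  have h1 : 1 / 4 ≤ |1 - f 3 (f 4 x) - f 3 (f 4 y)| :=
    le_trans (by linarith [(a x hx).2, (a y hy).2]) (le_abs_self _)
  have h2 : 3 / 4 ≤ |1 - f 4 x - f 4 y| :=
    le_trans (by linarith [(a x hx).1, (a y hy).1]) (le_abs_self _)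
  have h3 : 15 / 16 ≤ |1 - x - y| := le_trans (by linarith [hx.2, hy.2]) (le_abs_self _)
  rw [H_sub]
  calc _ ≤ 12 * (1 / 4 * (3 / 4)) * (15 / 16) * |x - y| := by nlinarith [abs_nonneg (x - y)]
    _ ≤ _ := by gcongr

lemma H_in {x : ℝ} (hx : x ∈ Icc (1 / 32 : ℝ) (1 / 4)) : H x ∈ Icc (3 / 16 : ℝ) (1 / 4) := by
  refine ⟨?_, (H_mem ⟨by linarith [hx.1], by linarith [hx.2]⟩).2⟩
  have h1 : 1 / 10 ≤ f 4 x ∧ f 4 x ≤ 3 / 4 := by
    unfold f; constructor <;> nlinarith [hx.1, hx.2]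
  simp only [H, Function.comp_apply]
  generalize f 4 x = u at *
  have h2 : 1 / 4 ≤ f 3 u ∧ f 3 u ≤ 3 / 4 := by
    unfold f; constructor <;> nlinarith [h1.1, h1.2, sq_nonneg (u - 1 / 2)]
  generalize f 3 u = v at *
  unfold f; nlinarith [h2.1, h2.2]

lemma H_con {x y : ℝ} (hx : x ∈ Icc (3 / 16 : ℝ) (1 / 4)) (hy : y ∈ Icc (3 / 16 : ℝ) (1 / 4)) :
    |H x - H y| ≤ |x - y| := by
  have a : ∀ x ∈ Icc (3 / 16 : ℝ) (1 / 4), 1 / 2 ≤ f 4 x ∧ f 4 x ≤ 3 / 4 := fun x hx => by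
    unfold f; constructor <;> nlinarith [hx.1, hx.2]
  have h1 : |1 - f 3 (f 4 x) - f 3 (f 4 y)| * |1 - f 4 x - f 4 y| ≤ 1 / 9 := by
    obtain ⟨a1, a2⟩ := a x hx
    obtain ⟨b1, b2⟩ := a y hy
    generalize f 4 x = u at *
    generalize f 4 y = v at *
    have e : 1 - f 3 u - f 3 v ≤ 0 := by unfold f; nlinarith
    rw [abs_of_nonpos e, abs_of_nonpos (by linarith)]
    have e2 : -(1 - f 3 u - f 3 v) ≤ 1 / 2 - 3 / 2 * (u + v - 1) ^ 2 := by
      unfold f; nlinarith [sq_nonneg (u - v)]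
    have e3 : 0 ≤ u + v - 1 := by linarith
    nlinarith [mul_le_mul_of_nonneg_right e2 e3,
      mul_nonneg (sq_nonneg (u + v - 1 - 1 / 3)) (by linarith : 0 ≤ u + v - 1 + 2 / 3)]
  have h3 : |1 - x - y| ≤ 5 / 8 := abs_le.2 ⟨by linarith [hx.2, hy.2], by linarith [hx.1, hy.1]⟩
  rw [H_sub]
  calc _ ≤ 12 * (1 / 9) * (5 / 8) * |x - y| := by gcongr
    _ ≤ _ := by nlinarith [abs_nonneg (x - y)]

lemma close {u v ε : ℝ} (hε : 0 < ε) (hu : 0 ≤ u) (hv : 0 ≤ v) (h : ⌊u / ε⌋₊ = ⌊v / ε⌋₊) :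
    |u - v| < ε := by
  have a1 := Nat.floor_le (div_nonneg hu hε.le)
  have a2 := Nat.lt_floor_add_one (u / ε)
  have a3 := Nat.floor_le (div_nonneg hv hε.le)
  have a4 := Nat.lt_floor_add_one (v / ε)
  rw [h] at a1 a2
  have : |u / ε - v / ε| < 1 := abs_lt.2 ⟨by linarith, by linarith⟩
  rwa [← sub_div, abs_div, abs_of_pos hε, div_lt_one hε] at this

lemma upper : coverEntropy H (Icc 0 1) ≤ ENNReal.log (3 / 2) := by
  classical
  refine ent_upper _ _ fun ε hε => ⟨(⌊1 / ε⌋₊ + 1) * (⌊12 / ε⌋₊ + 1), fun n s hs hsep => ?_⟩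
  have hit : ∀ x ∈ Icc (0 : ℝ) 1, ∀ k, H^[k] x ∈ Icc (0 : ℝ) 1 := fun x hx k => by
    induction k with
    | zero => exact hx
    | succ k ih =>
      rw [Function.iterate_succ_apply']
      exact ⟨(H_mem ih).1, (H_mem ih).2.trans (by norm_num)⟩
  have hex : ∀ x : ℝ, ∃ k, n ≤ k ∨ 1 / 32 ≤ H^[k + 1] x := fun x => ⟨n, Or.inl le_rfl⟩
  let code : ℝ → (ℕ × ℕ) × ℕ := fun x =>
    ((⌊x / ε⌋₊, ⌊12 * H^[Nat.find (hex x) + 1] x / ε⌋₊), Nat.find (hex x))
  have := Finset.card_le_card_of_injOn (s := s)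
    (t := (Finset.range (⌊1 / ε⌋₊ + 1) ×ˢ Finset.range (⌊12 / ε⌋₊ + 1)) ×ˢ Finset.range (n + 1)) code
    (fun x hx => ?_) fun x hx y hy e => ?_
  · simpa using this
  · simp only [code, Finset.coe_product, Finset.coe_range, mem_prod, mem_Iio, Nat.lt_succ_iff]
    refine ⟨⟨Nat.floor_mono ?_, Nat.floor_mono ?_⟩, Nat.find_min' _ (Or.inl le_rfl)⟩
    · gcongr; exact (hs hx).2
    · gcongr; linarith [(hit x (hs hx) (Nat.find (hex x) + 1)).2]
  · have hx' := hit x (hs hx)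
    have hy' := hit y (hs hy)
    simp only [code, Prod.mk.injEq] at e
    obtain ⟨⟨e1, e2⟩, e3⟩ := e
    have sx := Nat.find_spec (hex x)
    have sy := Nat.find_spec (hex y)
    have mx := fun i => Nat.find_min (hex x) (m := i)
    have my := fun i => Nat.find_min (hex y) (m := i)
    rw [← e3] at e2 sy my
    generalize Nat.find (hex x) = k at *
    have d1 := close hε (mul_nonneg (by norm_num) (hx' _).1) (mul_nonneg (by norm_num) (hy' _).1) e2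
    rw [← mul_sub, abs_mul, abs_of_pos (by norm_num : (0 : ℝ) < 12)] at d1
    have up : ∀ i j, j + i = k → |H^[j + 1] x - H^[j + 1] y| ≤ |H^[k + 1] x - H^[k + 1] y| := by
      intro i
      induction i with
      | zero => rintro j rfl; exact le_rfl
      | succ i ih =>
        intro j hj
        refine le_trans ?_ (ih (j + 1) (by omega))
        rw [Function.iterate_succ_apply' H (j + 1), Function.iterate_succ_apply' H (j + 1)]
        exact H_exp ⟨(hx' _).1, (not_le.1 (not_or.1 (mx j (by omega))).2).le⟩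
          ⟨(hy' _).1, (not_le.1 (not_or.1 (my j (by omega))).2).le⟩
    refine hsep x hx y hy fun j hj => ?_
    rw [Real.dist_eq]
    rcases j with _ | j
    · exact close hε (hs hx).1 (hs hy).1 e1
    rcases le_or_gt j k with h | h
    · linarith [up (k - j) j (by omega), abs_nonneg (H^[k + 1] x - H^[k + 1] y)]
    · have q : ∀ z : ℝ, (∀ i, H^[i] z ∈ Icc (0 : ℝ) 1) → H^[k + 1] z ≤ 1 / 4 := fun z hz => by
        rw [Function.iterate_succ_apply']; exact (H_mem (hz k)).2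
      have dn : ∀ i, H^[k + 2 + i] x ∈ Icc (3 / 16 : ℝ) (1 / 4) ∧
          H^[k + 2 + i] y ∈ Icc (3 / 16 : ℝ) (1 / 4) ∧ |H^[k + 2 + i] x - H^[k + 2 + i] y| < ε := by
        intro i
        induction i with
        | zero =>
          rw [add_zero, Function.iterate_succ_apply' H (k + 1), Function.iterate_succ_apply' H (k + 1)]
          exact ⟨H_in ⟨sx.resolve_left (by omega), q x hx'⟩, H_in ⟨sy.resolve_left (by omega), q y hy'⟩,
            (H_lip (hx' _) (hy' _)).trans_lt d1⟩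
        | succ i ih =>
          rw [← add_assoc, Function.iterate_succ_apply', Function.iterate_succ_apply']
          exact ⟨H_in ⟨by linarith [ih.1.1], ih.1.2⟩, H_in ⟨by linarith [ih.2.1.1], ih.2.1.2⟩,
            (H_con ih.1 ih.2.1).trans_lt ih.2.2⟩
      rw [show j + 1 = k + 2 + (j - k - 1) by omega]
      exact (dn _).2.2

lemma lower : ENNReal.log 2 ≤ coverEntropy (f 1 ∘ f 4 ∘ f 3) (Icc 0 1) := by
  have hc : Continuous (f 1 ∘ f 4 ∘ f 3) := by unfold f; fun_prop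
  refine ent_lower _ _ (Icc 0 (11 / 50))
    (fun b => if b then Icc (1 / 15) (11 / 50) else Icc 0 (1 / 25)) (δ := 1 / 50) (by norm_num)
    (fun x hx y hy => ?_) ⟨0, by norm_num⟩ (fun b => ?_) (Icc_subset_Icc_right (by norm_num)) ?_
  · simp only [Bool.false_eq_true, if_false, if_true] at hx hy
    rw [Real.dist_eq, abs_sub_comm]
    exact le_trans (by linarith [hx.2, hy.1]) (le_abs_self _)
  · cases b <;> exact Icc_subset_Icc (by norm_num) (by norm_num)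
  · rintro (_ | _) y hy
    · exact intermediate_value_Icc (by norm_num) hc.continuousOn
        ⟨by simpa [f] using hy.1, hy.2.trans (by norm_num [f])⟩
    · obtain ⟨z, hz, e⟩ : (1 / 2 : ℝ) ∈ f 3 '' Icc (1 / 15) (11 / 50) :=
        intermediate_value_Icc (by norm_num) (by unfold f; fun_prop) (by norm_num [f])
      obtain ⟨x, hx, e'⟩ := intermediate_value_Icc' hz.1 hc.continuousOn
        (show y ∈ _ from ⟨by simpa [e, show f 1 (f 4 2⁻¹) = 0 by norm_num [f]] using hy.1,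
          hy.2.trans (by norm_num [f])⟩)
      exact ⟨x, ⟨hx.1, hx.2.trans hz.2⟩, e'⟩

theorem result : ∃ a₁ ∈ Icc (1 : ℝ) 4, ∃ a₂ ∈ Icc (1 : ℝ) 4, ∃ a₃ ∈ Icc (1 : ℝ) 4,
    coverEntropy (f a₁ ∘ f a₂ ∘ f a₃) (Icc 0 1) ≠ coverEntropy (f a₁ ∘ f a₃ ∘ f a₂) (Icc 0 1) := by
  refine ⟨1, by norm_num, 3, by norm_num, 4, by norm_num, ne_of_lt ?_⟩
  refine upper.trans_lt (lt_of_lt_of_le (ENNReal.log_lt_log_iff.2 ?_) lower)
  rw [ENNReal.div_lt_iff (by simp) (by simp)]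
  norm_num

end Pool.Agent.Results.MP_3cd2af_an.OrderMatters
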